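import Mathlib
import Pool.Agent.H34.Coarse

namespace Pool.Agent.Results.MP_64ab56_co.K25
open Pool.Agent.H34.CoarseDefs

/-- The coarseness of `K_{9n+7}` at `n = 2` is one more than the conjectured value. -/
theorem result :
    coarseness (⊤ : SimpleGraph (Fin (9 * 2 + 7))) = (9 * 2 ^ 2 + 13 * 2 + 2) / 2 + 1 :=
  Pool.Agent.H34.Coarse.main

end Pool.Agent.Results.MP_64ab56_co.K25
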